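import Pool.Statements.S09833
import Pool.Agent.W_MP_c44a15_co.Final

set_option autoImplicit false
open Pool Pool.MP_83e192_co

namespace Pool.Agent.S09833

/-- Every finite graph G on n vertices has a real positive semidefinite matrix with G's off-diagonal nonzero pattern and the Strong Arnold Hypothesis, whose corank is at least G's minimum degree; that is, ν(G) ≥ δ(G). -/
theorem result :
    ∀ (n : ℕ) (G : SimpleGraph (Fin n)) [DecidableRel G.Adj],
      ∃ A : Matrix (Fin n) (Fin n) ℝ,
        A.PosSemidef ∧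
        (∀ i j : Fin n, i ≠ j → (A i j ≠ 0 ↔ G.Adj i j)) ∧
        (∀ X : Matrix (Fin n) (Fin n) ℝ, X.IsSymm →
          (∀ i j : Fin n, (i = j ∨ G.Adj i j) → X i j = 0) →
          A * X = 0 → X = 0) ∧
        G.minDegree ≤ n - A.rank := by
  intro n G _
  obtain ⟨A, h1, h2, h3, h4⟩ := Pool.Agent.W_MP_c44a15_co.main_sap n G
  exact ⟨A, h1, h2, h3, by omega⟩

end Pool.Agent.S09833
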